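import Mathlib

set_option autoImplicit false

/-!
Ring part of the proof that every graph on `n` vertices is the mod-2 sum of at most
`⌈n/2⌉` paths of the complete graph.

`U y m a W` is the sum, over all orderings of the `m`-element set `W`, of the product of the
variables `y` along the path which starts at `a` and then visits `W` in that order.
-/

namespace Pool.Agent.H6.PathOdd

open Finset

section Ring

variable {R : Type*} [CommRing R]

/-- Sum over all orderings of `W` (of size `m`) of the product of `y` along the path from `a`. -/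
def U (y : ℕ → ℕ → R) : ℕ → ℕ → Finset ℕ → R
  | 0, _, _ => 1
  | m + 1, a, W => ∑ w ∈ W, y a w * U y m w (W.erase w)

/-- The ideal generated by the variables `y a b` with `a < b < n`, `b - a ≤ l`. -/
def J (y : ℕ → ℕ → R) (n : ℕ) : ℕ → Ideal R
  | 0 => ⊥
  | l + 1 => J y n l ⊔ Ideal.span ((fun a => y a (a + l + 1)) '' (↑(range (n - (l + 1))) : Set ℕ))

/-- The number of edges of length at most `l`. -/
def M (n : ℕ) : ℕ → ℕ
  | 0 => 0
  | l + 1 => M n l + (n - (l + 1))

lemma J_mono (y : ℕ → ℕ → R) (n l : ℕ) : J y n l ≤ J y n (l + 1) := le_sup_left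

lemma y_mem_J (y : ℕ → ℕ → R) (n : ℕ) : ∀ (l a b : ℕ), a < b → b < n → b ≤ a + l → y a b ∈ J y n l
  | 0, a, b, h1, _, h3 => by omega
  | l + 1, a, b, h1, h2, h3 => by
    by_cases h : b ≤ a + l
    · exact J_mono y n l (y_mem_J y n l a b h1 h2 h)
    · have hb : b = a + l + 1 := by omega
      subst hb
      refine Ideal.mem_sup_right (Ideal.subset_span ⟨a, ?_, rfl⟩)
      simp only [coe_range, Set.mem_Iio]
      omega

lemma sup_pow_le (I K : Ideal R) (hI : I * I = ⊥) : ∀ k : ℕ, (I ⊔ K) ^ (k + 1) ≤ I * K ^ k ⊔ K ^ (k + 1)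
  | 0 => by simp
  | k + 1 => by
    rw [pow_succ]
    refine (Ideal.mul_mono_left (sup_pow_le I K hI k)).trans ?_
    rw [Ideal.sup_mul, Ideal.mul_sup, Ideal.mul_sup]
    refine sup_le (sup_le ?_ ?_) (sup_le ?_ ?_)
    · calc I * K ^ k * I = (I * I) * K ^ k := by ring
        _ = ⊥ := by rw [hI, Ideal.bot_mul]
        _ ≤ _ := bot_le
    · calc I * K ^ k * K = I * K ^ (k + 1) := by ring
        _ ≤ _ := le_sup_left
    · calc K ^ (k + 1) * I = I * K ^ (k + 1) := by ring
        _ ≤ _ := le_sup_left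
    · calc K ^ (k + 1) * K = K ^ (k + 1 + 1) := by ring
        _ ≤ _ := le_sup_right

lemma sup_pow_eq_bot (I K : Ideal R) (hI : I * I = ⊥) (b : ℕ) (hK : K ^ (b + 1) = ⊥) :
    (I ⊔ K) ^ (b + 2) = ⊥ := by
  have h := sup_pow_le I K hI (b + 1)
  have h2 : K ^ (b + 1 + 1) = ⊥ := by rw [pow_succ, hK, Ideal.bot_mul]
  rw [hK, Ideal.mul_bot, bot_sup_eq, h2] at h
  exact le_bot_iff.mp h

lemma span_pow_eq_bot {ι : Type*} [DecidableEq ι] (f : ι → R) (K : Ideal R) (b : ℕ)
    (hK : K ^ (b + 1) = ⊥) (s : Finset ι) (hf : ∀ i ∈ s, f i * f i = 0) :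
    (K ⊔ Ideal.span (f '' (↑s : Set ι))) ^ (b + s.card + 1) = ⊥ := by
  induction s using Finset.induction_on with
  | empty => simpa using hK
  | insert i s his ih =>
    have h1 := ih (fun j hj => hf j (Finset.mem_insert_of_mem hj))
    rw [Finset.card_insert_of_notMem his, Finset.coe_insert, Set.image_insert_eq, Ideal.span_insert,
      ← sup_assoc, sup_comm K, sup_assoc]
    have h2 : Ideal.span {f i} * Ideal.span {f i} = ⊥ := by
      rw [Ideal.span_singleton_mul_span_singleton, hf i (Finset.mem_insert_self i s),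
        Ideal.span_singleton_eq_bot]
    have := sup_pow_eq_bot (Ideal.span {f i}) (K ⊔ Ideal.span (f '' (↑s : Set ι))) h2 (b + s.card) h1
    rw [show b + (s.card + 1) + 1 = b + s.card + 2 by omega]
    exact this

lemma J_pow (y : ℕ → ℕ → R) (hsq : ∀ a b, y a b * y a b = 0) (n : ℕ) :
    ∀ l, (J y n l) ^ (M n l + 1) = ⊥
  | 0 => by simp [J, M]
  | l + 1 => by
    have := span_pow_eq_bot (fun a => y a (a + l + 1)) (J y n l) (M n l) (J_pow y hsq n l)
      (range (n - (l + 1))) (fun i _ => hsq _ _)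
    rw [card_range] at this
    exact this

lemma U_mem (y : ℕ → ℕ → R) (hsymm : ∀ a b, y a b = y b a) (n l p : ℕ) :
    ∀ (m a : ℕ) (W : Finset ℕ), a ∉ W → (p ≤ a ∧ a ≤ p + l ∧ a < n) →
      (∀ x ∈ W, p ≤ x ∧ x ≤ p + l ∧ x < n) → U y m a W ∈ (J y n l) ^ m
  | 0, a, W, _, _, _ => by simp [U]
  | m + 1, a, W, haW, ha, hW => by
    rw [U]
    refine Ideal.sum_mem _ (fun w hw => ?_)
    rw [pow_succ']
    have hw' := hW w hw
    have hne : a ≠ w := fun h => haW (h ▸ hw)
    refine Ideal.mul_mem_mul ?_ ?_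
    · rcases lt_or_gt_of_ne hne with h | h
      · exact y_mem_J y n l a w h hw'.2.2 (by omega)
      · rw [hsymm]
        exact y_mem_J y n l w a h ha.2.2 (by omega)
    · exact U_mem y hsymm n l p m w (W.erase w) (Finset.notMem_erase w W) hw'
        (fun x hx => hW x (Finset.mem_of_mem_erase hx))

/-- Peeling off the unique longest edge, path starting at the left end. -/
lemma peel_left (y : ℕ → ℕ → R) (hsymm : ∀ a b, y a b = y b a) (n l i : ℕ) (hn : i + l + 1 < n) :
    ∃ r ∈ (J y n l) ^ (l + 1),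
      U y (l + 1) i (Ioc i (i + l + 1)) =
        y i (i + l + 1) * U y l (i + 1 + l) (Ico (i + 1) (i + 1 + l)) + r := by
  refine ⟨∑ w ∈ Ioc i (i + l), y i w * U y l w ((Ioc i (i + l + 1)).erase w), ?_, ?_⟩
  · refine Ideal.sum_mem _ (fun w hw => ?_)
    rw [mem_Ioc] at hw
    rw [pow_succ']
    refine Ideal.mul_mem_mul (y_mem_J y n l i w hw.1 (by omega) hw.2) ?_
    refine U_mem y hsymm n l (i + 1) l w _ (Finset.notMem_erase _ _) (by omega) ?_
    intro x hx
    rw [mem_erase, mem_Ioc] at hx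
    omega
  · rw [U]
    have h1 : Ioc i (i + l + 1) = insert (i + l + 1) (Ioc i (i + l)) := by
      ext x; simp only [mem_Ioc, mem_insert]; omega
    have h2 : (Ioc i (i + l + 1)).erase (i + l + 1) = Ico (i + 1) (i + 1 + l) := by
      ext x; simp only [mem_Ioc, mem_erase, mem_Ico]; omega
    have h3 : (i + l + 1) ∉ Ioc i (i + l) := by simp
    conv_lhs => rw [show (∑ w ∈ Ioc i (i + l + 1), y i w * U y l w ((Ioc i (i + l + 1)).erase w)) =
      ∑ w ∈ insert (i + l + 1) (Ioc i (i + l)), y i w * U y l w ((Ioc i (i + l + 1)).erase w) by rw [← h1]]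
    rw [Finset.sum_insert h3, h2, show i + l + 1 = i + 1 + l by omega]

/-- Peeling off the unique longest edge, path starting at the right end. -/
lemma peel_right (y : ℕ → ℕ → R) (hsymm : ∀ a b, y a b = y b a) (n l i : ℕ) (hn : i + l + 1 < n) :
    ∃ r ∈ (J y n l) ^ (l + 1),
      U y (l + 1) (i + (l + 1)) (Ico i (i + (l + 1))) =
        y i (i + l + 1) * U y l i (Ioc i (i + l)) + r := by
  refine ⟨∑ w ∈ Ico (i + 1) (i + l + 1), y (i + (l + 1)) w * U y l w ((Ico i (i + (l + 1))).erase w), ?_, ?_⟩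
  · refine Ideal.sum_mem _ (fun w hw => ?_)
    rw [mem_Ico] at hw
    rw [pow_succ']
    refine Ideal.mul_mem_mul ?_ ?_
    · rw [hsymm]
      exact y_mem_J y n l w (i + (l + 1)) (by omega) (by omega) (by omega)
    · refine U_mem y hsymm n l i l w _ (Finset.notMem_erase _ _) (by omega) ?_
      intro x hx
      rw [mem_erase, mem_Ico] at hx
      omega
  · rw [U]
    have h1 : Ico i (i + (l + 1)) = insert i (Ico (i + 1) (i + l + 1)) := by
      ext x; simp only [mem_Ico, mem_insert]; omega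
    have h2 : (Ico i (i + (l + 1))).erase i = Ioc i (i + l) := by
      ext x; simp only [mem_Ioc, mem_erase, mem_Ico]; omega
    have h3 : i ∉ Ico (i + 1) (i + l + 1) := by simp
    conv_lhs => rw [show (∑ w ∈ Ico i (i + (l + 1)), y (i + (l + 1)) w * U y l w ((Ico i (i + (l + 1))).erase w)) =
      ∑ w ∈ insert i (Ico (i + 1) (i + l + 1)), y (i + (l + 1)) w * U y l w ((Ico i (i + (l + 1))).erase w) by rw [← h1]]
    rw [Finset.sum_insert h3, h2, hsymm (i + (l + 1)) i, show i + (l + 1) = i + l + 1 by omega]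

/-- Replacing factors by their leading parts. -/
lemma prod_sub_mem {ι : Type*} [DecidableEq ι] (K : Ideal R) (d : ℕ) (a b : ι → R) (s : Finset ι)
    (hb : ∀ i ∈ s, b i ∈ K ^ d) (hab : ∀ i ∈ s, a i - b i ∈ K ^ (d + 1)) :
    (∏ i ∈ s, a i) - (∏ i ∈ s, b i) ∈ K ^ (s.card * d + 1) ∧ (∏ i ∈ s, b i) ∈ K ^ (s.card * d) := by
  induction s using Finset.induction_on with
  | empty => simp
  | insert j s hjs ih =>
    obtain ⟨h1, h2⟩ := ih (fun i hi => hb i (mem_insert_of_mem hi)) (fun i hi => hab i (mem_insert_of_mem hi))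
    have hbj := hb j (mem_insert_self j s)
    have habj := hab j (mem_insert_self j s)
    rw [prod_insert hjs, prod_insert hjs, card_insert_of_notMem hjs]
    have haj : a j ∈ K ^ d := by
      have : a j = b j + (a j - b j) := by ring
      rw [this]
      exact Ideal.add_mem _ hbj (Ideal.pow_le_pow_right (Nat.le_succ d) habj)
    constructor
    · have : a j * ∏ i ∈ s, a i - b j * ∏ i ∈ s, b i =
          a j * (∏ i ∈ s, a i - ∏ i ∈ s, b i) + (a j - b j) * ∏ i ∈ s, b i := by ring
      rw [this]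
      refine Ideal.add_mem _ ?_ ?_
      · have := Ideal.mul_mem_mul haj h1
        rwa [← pow_add, show d + (s.card * d + 1) = (s.card + 1) * d + 1 by ring] at this
      · have := Ideal.mul_mem_mul habj h2
        rwa [← pow_add, show d + 1 + s.card * d = (s.card + 1) * d + 1 by ring] at this
    · have := Ideal.mul_mem_mul hbj h2
      rwa [← pow_add, show d + s.card * d = (s.card + 1) * d by ring] at this

/-- Left-phase factor. -/
def afac (y : ℕ → ℕ → R) (l i : ℕ) : R := U y l i (Ioc i (i + l))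
/-- Right-phase factor. -/
def bfac (y : ℕ → ℕ → R) (l i : ℕ) : R := U y l (i + l) (Ico i (i + l))

/-- The part of length `l`. -/
def T (y : ℕ → ℕ → R) (n l : ℕ) : R := if Even (n - 1 - l) then afac y l (n - 1 - l) else bfac y l 0

/-- The product of active parts at level `l`. -/
def X (y : ℕ → ℕ → R) (n l : ℕ) : R :=
  if Even (n - 1 - l) then ∏ i ∈ range (n - l), afac y l i else ∏ i ∈ range (n - l), bfac y l i

/-- The product of all variables of length at most `l`. -/
def Om (y : ℕ → ℕ → R) (n : ℕ) (l : ℕ) : R :=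
  ∏ j ∈ range l, ∏ i ∈ range (n - (j + 1)), y i (i + j + 1)

lemma T_mem (y : ℕ → ℕ → R) (hsymm : ∀ a b, y a b = y b a) (n l m : ℕ) (hl : l ≤ m) (hln : l < n) :
    T y n l ∈ (J y n m) ^ l := by
  unfold T
  split_ifs
  · refine U_mem y hsymm n m (n - 1 - l) l _ _ (by simp) (by omega) ?_
    intro x hx
    rw [mem_Ioc] at hx
    omega
  · refine U_mem y hsymm n m 0 l _ _ (by simp) (by omega) ?_
    intro x hx
    rw [mem_Ico] at hx
    omega

lemma rest_mem (y : ℕ → ℕ → R) (hsymm : ∀ a b, y a b = y b a) (n m : ℕ) :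
    ∀ l, l ≤ m + 1 → l ≤ n → (∏ j ∈ range l, T y n j) ∈ (J y n m) ^ (∑ j ∈ range l, j)
  | 0, _, _ => by simp
  | l + 1, h1, h2 => by
    rw [prod_range_succ, sum_range_succ, pow_add]
    exact Ideal.mul_mem_mul (rest_mem y hsymm n m l (by omega) (by omega))
      (T_mem y hsymm n l m (by omega) (by omega))

lemma M_eq (n : ℕ) : ∀ l, l + 1 ≤ n → M n l = (n - (l + 1)) * l + ∑ j ∈ range (l + 1), j
  | 0, _ => by simp [M]
  | l + 1, h => by
    rw [M, M_eq n l (by omega), sum_range_succ (fun j => j) (l + 1)]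
    obtain ⟨d, rfl⟩ : ∃ d, n = l + 2 + d := ⟨n - (l + 2), by omega⟩
    rw [show l + 2 + d - (l + 1) = d + 1 by omega, show l + 2 + d - (l + 1 + 1) = d by omega]
    ring

/-- One step: peel all edges of length `l+1`. -/
lemma step (y : ℕ → ℕ → R) (hsymm : ∀ a b, y a b = y b a) (hsq : ∀ a b, y a b * y a b = 0)
    (n l : ℕ) (hl : l + 1 < n) :
    X y n (l + 1) * ∏ j ∈ range (l + 1), T y n j =
      (∏ i ∈ range (n - (l + 1)), y i (i + l + 1)) * (X y n l * ∏ j ∈ range l, T y n j) := by
  have hrest := rest_mem y hsymm n l (l + 1) le_rfl (by omega)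
  have hM := M_eq n l (by omega)
  have hJ := J_pow y hsq n l
  -- general replacement
  have key : ∀ (a v : ℕ → R), (∀ i ∈ range (n - (l + 1)), v i ∈ (J y n l) ^ l) →
      (∀ i ∈ range (n - (l + 1)), ∃ r ∈ (J y n l) ^ (l + 1), a i = y i (i + l + 1) * v i + r) →
      (∏ i ∈ range (n - (l + 1)), a i) * ∏ j ∈ range (l + 1), T y n j =
      ((∏ i ∈ range (n - (l + 1)), y i (i + l + 1)) * ∏ i ∈ range (n - (l + 1)), v i) *
        ∏ j ∈ range (l + 1), T y n j := by
    intro a v hv ha
    have h1 := prod_sub_mem (J y n l) l a (fun i => y i (i + l + 1) * v i) (range (n - (l + 1)))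
      (fun i hi => Ideal.mul_mem_left _ _ (hv i hi))
      (fun i hi => by
        obtain ⟨r, hr, h⟩ := ha i hi
        rw [h]
        simpa using hr)
    have h2 := Ideal.mul_mem_mul h1.1 hrest
    rw [card_range, ← pow_add, show (n - (l + 1)) * l + 1 + ∑ j ∈ range (l + 1), j = M n l + 1 by omega,
      hJ, Ideal.mem_bot, sub_mul, sub_eq_zero] at h2
    rw [h2, prod_mul_distrib]
  have hnl : n - l = (n - (l + 1)) + 1 := by omega
  have hpar : Even (n - 1 - l) ↔ ¬ Even (n - 1 - (l + 1)) := by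
    rw [show n - 1 - l = (n - 1 - (l + 1)) + 1 by omega, Nat.even_add_one]
  by_cases hev : Even (n - 1 - (l + 1))
  · have hev' : ¬ Even (n - 1 - l) := by rw [hpar]; simpa using hev
    rw [X, if_pos hev, X, if_neg hev']
    rw [key (afac y (l + 1)) (fun i => bfac y l (i + 1))]
    · rw [prod_range_succ (fun j => T y n j) l, hnl, prod_range_succ' (fun i => bfac y l i)]
      rw [show T y n l = bfac y l 0 by rw [T, if_neg hev']]
      ring
    · intro i hi
      rw [mem_range] at hi
      refine U_mem y hsymm n l (i + 1) l _ _ (by simp) (by omega) ?_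
      intro x hx
      rw [mem_Ico] at hx
      omega
    · intro i hi
      rw [mem_range] at hi
      obtain ⟨r, hr, h⟩ := peel_left y hsymm n l i (by omega)
      exact ⟨r, hr, by unfold afac bfac; rw [← h]; rfl⟩
  · have hev' : Even (n - 1 - l) := by rw [hpar]; exact hev
    rw [X, if_neg hev, X, if_pos hev']
    rw [key (bfac y (l + 1)) (fun i => afac y l i)]
    · rw [prod_range_succ (fun j => T y n j) l, hnl, prod_range_succ (fun i => afac y l i)]
      rw [show T y n l = afac y l (n - (l + 1)) by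
        rw [T, if_pos hev', show n - 1 - l = n - (l + 1) by omega]]
      ring
    · intro i hi
      rw [mem_range] at hi
      refine U_mem y hsymm n l i l _ _ (by simp) (by omega) ?_
      intro x hx
      rw [mem_Ioc] at hx
      omega
    · intro i hi
      rw [mem_range] at hi
      obtain ⟨r, hr, h⟩ := peel_right y hsymm n l i (by omega)
      exact ⟨r, hr, by unfold afac bfac; rw [← h]⟩

lemma X_zero (y : ℕ → ℕ → R) (n : ℕ) : X y n 0 = 1 := by
  unfold X afac bfac
  split_ifs <;> simp [U]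

lemma main_aux (y : ℕ → ℕ → R) (hsymm : ∀ a b, y a b = y b a) (hsq : ∀ a b, y a b * y a b = 0)
    (n : ℕ) : ∀ l, l < n → X y n l * ∏ j ∈ range l, T y n j = Om y n l
  | 0, _ => by simp [X_zero, Om]
  | l + 1, h => by
    rw [step y hsymm hsq n l h, main_aux y hsymm hsq n l (by omega), Om, Om, prod_range_succ]
    ring

/-- The main identity: the product of all parts is the product of all variables. -/
theorem prod_T (y : ℕ → ℕ → R) (hsymm : ∀ a b, y a b = y b a) (hsq : ∀ a b, y a b * y a b = 0)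
    (n : ℕ) (hn : 0 < n) : ∏ j ∈ range n, T y n j = Om y n (n - 1) := by
  have h := main_aux y hsymm hsq n (n - 1) (by omega)
  rw [← h]
  obtain ⟨m, rfl⟩ : ∃ m, n = m + 1 := ⟨n - 1, by omega⟩
  rw [prod_range_succ, show m + 1 - 1 = m by omega, mul_comm]
  congr 1
  unfold X T
  simp

end Ring

end Pool.Agent.H6.PathOdd
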