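import Mathlib
import Pool.Agent.H6.PathOddRing

set_option autoImplicit false

/-!
Group-algebra part of the proof that every graph on `n` vertices is the mod-2 sum of at most
`⌈n/2⌉` paths of the complete graph.
-/

namespace Pool.Agent.H6.PathOdd

open Finset

section Char2

variable {R : Type*} [CommRing R]

/-- Sum over all orderings of `W` (of size `m`) of the products along the path `a, W, b`. -/
def V (y : ℕ → ℕ → R) : ℕ → ℕ → ℕ → Finset ℕ → R
  | 0, a, b, _ => y a b
  | m + 1, a, b, W => ∑ w ∈ W, y a w * V y m w b (W.erase w)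

lemma sum_erase_comm {S : Type*} [AddCommMonoid S] (W : Finset ℕ) (f : ℕ → ℕ → S) :
    ∑ w ∈ W, ∑ b ∈ W.erase w, f w b = ∑ b ∈ W, ∑ w ∈ W.erase b, f w b := by
  refine Finset.sum_comm' ?_
  intro x z
  simp only [mem_erase]
  constructor
  · rintro ⟨h1, h2, h3⟩
    exact ⟨⟨fun h => h2 h.symm, h1⟩, h3⟩
  · rintro ⟨⟨h1, h2⟩, h3⟩
    exact ⟨h2, fun h => h1 h.symm, h3⟩

lemma erase_comm' (W : Finset ℕ) (a b : ℕ) : (W.erase a).erase b = (W.erase b).erase a := by
  ext x; simp only [mem_erase]; tauto

lemma U_eq_V (y : ℕ → ℕ → R) : ∀ (m a : ℕ) (W : Finset ℕ),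
    U y (m + 1) a W = ∑ b ∈ W, V y m a b (W.erase b)
  | 0, a, W => by simp [U, V]
  | m + 1, a, W => by
    rw [U]
    have h1 : ∀ w ∈ W, y a w * U y (m + 1) w (W.erase w) =
        ∑ b ∈ W.erase w, y a w * V y m w b ((W.erase b).erase w) := by
      intro w _
      rw [U_eq_V y m w (W.erase w), mul_sum]
      refine sum_congr rfl (fun b _ => ?_)
      rw [erase_comm']
    rw [sum_congr rfl h1, sum_erase_comm]
    refine sum_congr rfl (fun b _ => ?_)
    rw [V]

lemma V_right (y : ℕ → ℕ → R) : ∀ (m a b : ℕ) (W : Finset ℕ),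
    V y (m + 1) a b W = ∑ w ∈ W, V y m a w (W.erase w) * y w b
  | 0, a, b, W => by simp [V]
  | m + 1, a, b, W => by
    rw [V]
    have h1 : ∀ w ∈ W, y a w * V y (m + 1) w b (W.erase w) =
        ∑ v ∈ W.erase w, (y a w * V y m w v ((W.erase v).erase w)) * y v b := by
      intro w _
      rw [V_right y m w b (W.erase w), mul_sum]
      refine sum_congr rfl (fun v _ => ?_)
      rw [erase_comm', mul_assoc]
    rw [sum_congr rfl h1, sum_erase_comm]
    refine sum_congr rfl (fun v _ => ?_)
    rw [V, sum_mul]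

lemma V_symm (y : ℕ → ℕ → R) (hsymm : ∀ a b, y a b = y b a) : ∀ (m a b : ℕ) (W : Finset ℕ),
    V y m a b W = V y m b a W
  | 0, a, b, W => hsymm a b
  | m + 1, a, b, W => by
    rw [V, V_right]
    refine sum_congr rfl (fun w _ => ?_)
    rw [V_symm y hsymm m w b, hsymm a w, mul_comm]

lemma sum_symm_eq_zero (h2 : ∀ r : R, r + r = 0) (W : Finset ℕ) (f : ℕ → ℕ → R)
    (hf : ∀ a b, f a b = f b a) : ∑ w ∈ W, ∑ b ∈ W.erase w, f w b = 0 := by
  rw [Finset.sum_sigma']
  refine Finset.sum_involution (fun p _ => ⟨p.2, p.1⟩) ?_ ?_ ?_ ?_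
  · rintro ⟨a, b⟩ _
    show f a b + f b a = 0
    rw [hf b a]; exact h2 _
  · rintro ⟨a, b⟩ h _ heq
    simp only [mem_sigma, mem_erase] at h
    simp only [Sigma.mk.injEq] at heq
    exact h.2.1 heq.1
  · rintro ⟨a, b⟩ h
    simp only [mem_sigma, mem_erase] at h ⊢
    exact ⟨h.2.2, fun h' => h.2.1 h'.symm, h.1⟩
  · rintro ⟨a, b⟩ _
    rfl

/-- All orderings of a set with at least two elements cancel in characteristic two. -/
lemma sum_U_eq_zero (y : ℕ → ℕ → R) (hsymm : ∀ a b, y a b = y b a) (h2 : ∀ r : R, r + r = 0)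
    (m : ℕ) (W : Finset ℕ) : ∑ w ∈ W, U y (m + 1) w (W.erase w) = 0 := by
  have h1 : ∀ w ∈ W, U y (m + 1) w (W.erase w) =
      ∑ b ∈ W.erase w, V y m w b ((W.erase w).erase b) := by
    intro w _
    rw [U_eq_V]
  rw [sum_congr rfl h1]
  refine sum_symm_eq_zero h2 W (fun w b => V y m w b ((W.erase w).erase b)) ?_
  intro a b
  show V y m a b ((W.erase a).erase b) = V y m b a ((W.erase b).erase a)
  rw [V_symm y hsymm, erase_comm']

lemma U_one_add (z : ℕ → ℕ → R) (hsymm : ∀ a b, z a b = z b a) (h2 : ∀ r : R, r + r = 0)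
    (m a : ℕ) (W : Finset ℕ) :
    U (fun a b => 1 + z a b) (m + 2) a W =
      ∑ w ∈ W, z a w * U (fun a b => 1 + z a b) (m + 1) w (W.erase w) := by
  rw [U]
  simp only [add_mul, one_mul]
  rw [sum_add_distrib, sum_U_eq_zero (fun a b => 1 + z a b) (fun a b => by rw [hsymm]) h2, zero_add]

end Char2

/-- Edge sets as vectors over the two-element field. -/
abbrev G := Sym2 ℕ → ZMod 2

/-- The group algebra. -/
abbrev A := AddMonoidAlgebra (ZMod 2) G

/-- The group element of a vector. -/
noncomputable def gel (g : G) : A := AddMonoidAlgebra.single g 1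

/-- The indicator of one edge. -/
def dl (e : Sym2 ℕ) : G := Pi.single e 1

noncomputable def z (a b : ℕ) : A := gel (dl s(a, b))

noncomputable def y (a b : ℕ) : A := 1 + z a b

lemma z_symm (a b : ℕ) : z a b = z b a := by unfold z; rw [Sym2.eq_swap]

lemma y_symm (a b : ℕ) : y a b = y b a := by unfold y; rw [z_symm]

lemma zmod2_add_self (c : ZMod 2) : c + c = 0 := by
  revert c; decide

lemma A_add_self (r : A) : r + r = 0 := by
  ext g
  simp [zmod2_add_self]

lemma G_add_self (g : G) : g + g = 0 := by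
  funext e
  simp [zmod2_add_self]

lemma gel_mul (g h : G) : gel g * gel h = gel (g + h) := by
  unfold gel
  rw [AddMonoidAlgebra.single_mul_single, mul_one]

lemma gel_zero : gel 0 = 1 := rfl

lemma y_sq (a b : ℕ) : y a b * y a b = 0 := by
  unfold y z
  have : (1 + gel (dl s(a, b))) * (1 + gel (dl s(a, b))) =
      (1 + gel (dl s(a, b)) * gel (dl s(a, b))) + (gel (dl s(a, b)) + gel (dl s(a, b))) := by ring
  rw [this, gel_mul, G_add_self, gel_zero, A_add_self, A_add_self, zero_add]

/-- `x` is a combination of group elements satisfying `P`. -/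
def Sup (x : A) (P : G → Prop) : Prop := ∀ g, x.coeff g ≠ 0 → P g

lemma Sup.mono {x : A} {P Q : G → Prop} (h : Sup x P) (hPQ : ∀ g, P g → Q g) : Sup x Q :=
  fun g hg => hPQ g (h g hg)

lemma Sup_gel (g : G) : Sup (gel g) (fun h => h = g) := by
  intro h hh
  by_contra hne
  apply hh
  unfold gel
  simp [AddMonoidAlgebra.coeff_single, Ne.symm hne]

lemma Sup.add {x x' : A} {P : G → Prop} (h : Sup x P) (h' : Sup x' P) : Sup (x + x') P := by
  intro g hg
  rw [AddMonoidAlgebra.coeff_add, Finsupp.add_apply] at hg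
  by_cases h1 : x.coeff g = 0
  · rw [h1, zero_add] at hg
    exact h' g hg
  · exact h g h1

lemma Sup_sum {ι : Type*} (s : Finset ι) (f : ι → A) (P : G → Prop) (h : ∀ i ∈ s, Sup (f i) P) :
    Sup (∑ i ∈ s, f i) P := by
  classical
  induction s using Finset.induction_on with
  | empty => intro g hg; simp at hg
  | insert i s his ih =>
    rw [sum_insert his]
    exact (h i (mem_insert_self i s)).add (ih (fun j hj => h j (mem_insert_of_mem hj)))

lemma Sup.mul {x x' : A} {P Q : G → Prop} (h : Sup x P) (h' : Sup x' Q) :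
    Sup (x * x') (fun g => ∃ a b, P a ∧ Q b ∧ g = a + b) := by
  classical
  intro g hg
  have h1 : g ∈ (x * x').coeff.support := Finsupp.mem_support_iff.mpr hg
  have h2 := AddMonoidAlgebra.support_coeff_mul_subset x x' h1
  rw [Finset.mem_add] at h2
  obtain ⟨a, ha, b, hb, hab⟩ := h2
  exact ⟨a, b, h a (Finsupp.mem_support_iff.mp ha), h' b (Finsupp.mem_support_iff.mp hb), hab.symm⟩

lemma Sup_prod {ι : Type*} (s : Finset ι) (f : ι → A) (P : ι → G → Prop)
    (h : ∀ i ∈ s, Sup (f i) (P i)) :
    Sup (∏ i ∈ s, f i) (fun g => ∃ S : ι → G, (∀ i ∈ s, P i (S i)) ∧ g = ∑ i ∈ s, S i) := by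
  classical
  induction s using Finset.induction_on with
  | empty =>
    rw [prod_empty, ← gel_zero]
    refine (Sup_gel 0).mono ?_
    rintro g rfl
    exact ⟨fun _ => 0, by simp, by simp⟩
  | insert i s his ih =>
    rw [prod_insert his]
    refine ((h i (mem_insert_self i s)).mul (ih (fun j hj => h j (mem_insert_of_mem hj)))).mono ?_
    rintro g ⟨a, b, ha, ⟨S, hS, rfl⟩, rfl⟩
    refine ⟨Function.update S i a, ?_, ?_⟩
    · intro j hj
      rw [mem_insert] at hj
      rcases hj with rfl | hj
      · simpa using ha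
      · have : j ≠ i := fun h => his (h ▸ hj)
        rw [Function.update_of_ne this]
        exact hS j hj
    · rw [sum_insert his, Function.update_self]
      congr 1
      refine sum_congr rfl (fun j hj => ?_)
      have : j ≠ i := fun h => his (h ▸ hj)
      rw [Function.update_of_ne this]

/-- The edge vector of a list of vertices. -/
def es : List ℕ → G
  | [] => 0
  | [_] => 0
  | a :: b :: l => dl s(a, b) + es (b :: l)

/-- `g` is the edge vector of a path starting at `a` with all other vertices in `W`. -/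
def PathFrom (a : ℕ) (W : Finset ℕ) (g : G) : Prop :=
  ∃ l : List ℕ, (a :: l).Nodup ∧ (∀ x ∈ l, x ∈ W) ∧ g = es (a :: l)

lemma Sup_U : ∀ (m a : ℕ) (W : Finset ℕ), W.card = m → a ∉ W → Sup (U y m a W) (PathFrom a W)
  | 0, a, W, _, _ => by
    rw [U, ← gel_zero]
    refine (Sup_gel 0).mono ?_
    rintro g rfl
    exact ⟨[], by simp, by simp, rfl⟩
  | 1, a, W, h, haW => by
    rw [U]
    refine Sup_sum _ _ _ (fun w hw => ?_)
    rw [U, mul_one]
    unfold y z
    rw [← gel_zero]
    refine Sup.add ?_ ?_
    · refine (Sup_gel 0).mono ?_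
      rintro g rfl
      exact ⟨[], by simp, by simp, rfl⟩
    · refine (Sup_gel _).mono ?_
      rintro g rfl
      refine ⟨[w], ?_, ?_, ?_⟩
      · have : a ≠ w := fun h => haW (h ▸ hw)
        simp [this]
      · simpa using hw
      · simp [es]
  | m + 2, a, W, h, haW => by
    have h1 : U y (m + 2) a W = ∑ w ∈ W, z a w * U y (m + 1) w (W.erase w) :=
      U_one_add z z_symm A_add_self m a W
    rw [h1]
    refine Sup_sum _ _ _ (fun w hw => ?_)
    have h2 := Sup_U (m + 1) w (W.erase w) (by rw [card_erase_of_mem hw, h]; rfl)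
      (Finset.notMem_erase w W)
    refine ((Sup_gel (dl s(a, w))).mul h2).mono ?_
    rintro g ⟨_, _, rfl, ⟨l, hl1, hl2, rfl⟩, rfl⟩
    refine ⟨w :: l, ?_, ?_, ?_⟩
    · rw [List.nodup_cons]
      refine ⟨?_, hl1⟩
      intro hmem
      rw [List.mem_cons] at hmem
      rcases hmem with h' | h'
      · exact haW (h' ▸ hw)
      · exact haW (mem_of_mem_erase (hl2 a h'))
    · intro x hx
      rw [List.mem_cons] at hx
      rcases hx with rfl | hx
      · exact hw
      · exact mem_of_mem_erase (hl2 x hx)
    · simp [es]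

open Classical in
/-- Coefficients of a product of `1 + [e]`. -/
lemma coeff_prod (s : Finset (Sym2 ℕ)) (g : G) :
    (∏ e ∈ s, ((1 : A) + gel (dl e))).coeff g = if ∀ e, e ∉ s → g e = 0 then 1 else 0 := by
  classical
  induction s using Finset.induction_on generalizing g with
  | empty =>
    rw [prod_empty, ← gel_zero]
    unfold gel
    rw [AddMonoidAlgebra.coeff_single, Finsupp.single_apply]
    by_cases h : g = 0
    · subst h; simp
    · rw [if_neg (fun h' => h h'.symm), if_neg]
      intro h'
      exact h (funext fun e => h' e (by simp))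
  | insert e s hes ih =>
    rw [prod_insert hes, add_mul, one_mul, AddMonoidAlgebra.coeff_add, Finsupp.add_apply]
    have h1 : (gel (dl e) * ∏ e ∈ s, ((1 : A) + gel (dl e))).coeff g =
        (∏ e ∈ s, ((1 : A) + gel (dl e))).coeff (dl e + g) := by
      unfold gel
      rw [AddMonoidAlgebra.coeff_single_mul_apply, one_mul]
      congr 1
      have : -(dl e) = dl e := by
        rw [neg_eq_iff_add_eq_zero]; exact G_add_self _
      rw [this]
    rw [h1, ih, ih]
    have hde : dl e e = 1 := by simp [dl]
    have hdne : ∀ e', e' ≠ e → dl e e' = 0 := fun e' h => by simp [dl, h]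
    by_cases hg : ∀ e', e' ∉ insert e s → g e' = 0
    · rw [if_pos hg]
      have hcases : g e = 0 ∨ g e = 1 := by
        generalize g e = c
        revert c; decide
      rcases hcases with h0 | h0
      · rw [if_pos, if_neg, add_zero]
        · intro h
          have := h e hes
          rw [Pi.add_apply, hde, h0] at this
          exact absurd this (by decide)
        · intro e' he'
          by_cases h : e' = e
          · rw [h, h0]
          · exact hg e' (by simp [h, he'])
      · rw [if_neg, if_pos, zero_add]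
        · intro e' he'
          by_cases h : e' = e
          · rw [h, Pi.add_apply, hde, h0]; decide
          · rw [Pi.add_apply, hdne e' h, hg e' (by simp [h, he']), zero_add]
        · intro h
          have := h e hes
          rw [h0] at this
          exact absurd this (by decide)
    · rw [if_neg hg, if_neg, if_neg, add_zero]
      · intro h
        apply hg
        intro e' he'
        rw [mem_insert, not_or] at he'
        have := h e' he'.2
        rwa [Pi.add_apply, hdne e' he'.1, zero_add] at this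
      · intro h
        apply hg
        intro e' he'
        rw [mem_insert, not_or] at he'
        exact h e' he'.2

lemma coeff_Om (n : ℕ) (g : G)
    (hg : ∀ e, g e ≠ 0 → ∃ a b, a < b ∧ b < n ∧ e = s(a, b)) :
    (Om y n (n - 1)).coeff g = 1 := by
  classical
  have h1 : Om y n (n - 1) = ∏ e ∈ ((range (n - 1)).sigma (fun j => range (n - (j + 1)))).image
      (fun x : (_ : ℕ) × ℕ => s(x.2, x.2 + x.1 + 1)), ((1 : A) + gel (dl e)) := by
    rw [Finset.prod_image]
    · unfold Om
      rw [Finset.prod_sigma']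
      rfl
    · rintro ⟨j, i⟩ _ ⟨j', i'⟩ _ h
      simp only [Sym2.eq_iff] at h
      simp only [Sigma.mk.injEq, heq_eq_eq]
      omega
  rw [h1, coeff_prod, if_pos]
  intro e he
  by_contra hne
  obtain ⟨a, b, hab, hbn, rfl⟩ := hg e hne
  apply he
  rw [mem_image]
  refine ⟨⟨b - a - 1, a⟩, ?_, ?_⟩
  · simp only [mem_sigma, mem_range]
    omega
  · simp only
    congr 1
    rw [show a + (b - a - 1) + 1 = b by omega]

end Pool.Agent.H6.PathOdd
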