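import Mathlib
import Pool.Agent.H6.PathOddAlg

set_option autoImplicit false

/-!
Assembly: every graph on `n` vertices is the mod-2 sum of at most `⌈n/2⌉` paths.
-/

namespace Pool.Agent.H6.PathOdd

open Finset

/-- `g` is the edge vector of a path with vertices below `n`. -/
def PathVec (n : ℕ) (g : G) : Prop :=
  ∃ l : List ℕ, l ≠ [] ∧ l.Nodup ∧ (∀ x ∈ l, x < n) ∧ g = es l

lemma es_append : ∀ (l : List ℕ) (c : ℕ) (l' : List ℕ), es (l ++ c :: l') = es (l ++ [c]) + es (c :: l')
  | [], c, l' => by simp [es]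
  | [x], c, l' => by simp [es]
  | x :: x' :: l, c, l' => by
    have := es_append (x' :: l) c l'
    simp only [List.cons_append] at this ⊢
    rw [es, es, this, add_assoc]

lemma es_reverse : ∀ (l : List ℕ), es l.reverse = es l
  | [] => rfl
  | [x] => rfl
  | x :: x' :: l => by
    have h := es_reverse (x' :: l)
    rw [List.reverse_cons, List.reverse_cons, List.append_assoc]
    rw [show ([x'] ++ [x] : List ℕ) = x' :: [x] from rfl, es_append]
    rw [List.reverse_cons] at h
    rw [h, es, es, es, add_zero, add_comm, Sym2.eq_swap]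

lemma pathVec_join (n c : ℕ) (W1 W2 : Finset ℕ) (hc : c < n) (h1 : ∀ x ∈ W1, c < x ∧ x < n)
    (h2 : ∀ x ∈ W2, x < c) (a b : G) (ha : PathFrom c W1 a) (hb : PathFrom c W2 b) :
    PathVec n (a + b) := by
  obtain ⟨l1, hn1, hm1, rfl⟩ := ha
  obtain ⟨l2, hn2, hm2, rfl⟩ := hb
  refine ⟨l2.reverse ++ c :: l1, by simp, ?_, ?_, ?_⟩
  · rw [List.nodup_append]
    refine ⟨?_, hn1, ?_⟩
    · rw [List.nodup_reverse]
      exact (List.nodup_cons.mp hn2).2
    · intro x hx x' hx' hxx
      subst hxx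
      rw [List.mem_reverse] at hx
      have h3 := h2 x (hm2 x hx)
      rw [List.mem_cons] at hx'
      rcases hx' with rfl | hx'
      · omega
      · have := h1 x (hm1 x hx'); omega
  · intro x hx
    rw [List.mem_append, List.mem_reverse, List.mem_cons] at hx
    rcases hx with hx | rfl | hx
    · have := h2 x (hm2 x hx); omega
    · exact hc
    · exact (h1 x (hm1 x hx)).2
  · rw [es_append, add_comm]
    congr 1
    rw [show l2.reverse ++ [c] = (c :: l2).reverse by simp, es_reverse]

lemma pathVec_join2 (n c : ℕ) (W1 W2 : Finset ℕ) (hc : c + 1 < n) (h1 : ∀ x ∈ W1, c + 1 < x ∧ x < n)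
    (h2 : ∀ x ∈ W2, x < c) (a b : G) (ha : PathFrom (c + 1) W1 a) (hb : PathFrom c W2 b) :
    PathVec n (a + b + dl s(c, c + 1)) := by
  obtain ⟨l1, hn1, hm1, rfl⟩ := ha
  obtain ⟨l2, hn2, hm2, rfl⟩ := hb
  refine ⟨(c :: l2).reverse ++ (c + 1) :: l1, by simp, ?_, ?_, ?_⟩
  · rw [List.nodup_append]
    refine ⟨?_, hn1, ?_⟩
    · rw [List.nodup_reverse]
      exact hn2
    · intro x hx x' hx' hxx
      subst hxx
      rw [List.mem_reverse, List.mem_cons] at hx
      have h3 : x < c + 1 := by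
        rcases hx with rfl | hx
        · omega
        · have := h2 x (hm2 x hx); omega
      rw [List.mem_cons] at hx'
      rcases hx' with rfl | hx'
      · omega
      · have := h1 x (hm1 x hx'); omega
  · intro x hx
    rw [List.mem_append, List.mem_reverse, List.mem_cons, List.mem_cons] at hx
    rcases hx with (rfl | hx) | rfl | hx
    · omega
    · have := h2 x (hm2 x hx); omega
    · exact hc
    · exact (h1 x (hm1 x hx)).2
  · rw [es_append, List.reverse_cons, List.append_assoc]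
    rw [show ([c] ++ [c + 1] : List ℕ) = c :: [c + 1] from rfl, es_append l2.reverse c [c + 1]]
    rw [show l2.reverse ++ [c] = (c :: l2).reverse by simp, es_reverse]
    rw [es, es, add_zero]
    abel

lemma pathVec_single (n c : ℕ) (W1 : Finset ℕ) (hc : c < n) (h1 : ∀ x ∈ W1, c < x ∧ x < n)
    (a : G) (ha : PathFrom c W1 a) : PathVec n a := by
  obtain ⟨l1, hn1, hm1, rfl⟩ := ha
  refine ⟨c :: l1, by simp, hn1, ?_, rfl⟩
  intro x hx
  rw [List.mem_cons] at hx
  rcases hx with rfl | hx
  · exact hc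
  · exact (h1 x (hm1 x hx)).2

section reindex
variable {R : Type*} [CommRing R]

lemma prod_range_two_mul (f : ℕ → R) : ∀ k, ∏ j ∈ range (2 * k), f j = ∏ i ∈ range k, (f (2 * i) * f (2 * i + 1))
  | 0 => by simp
  | k + 1 => by
    rw [show 2 * (k + 1) = 2 * k + 1 + 1 by ring, prod_range_succ, prod_range_succ, prod_range_two_mul f k,
      prod_range_succ, mul_assoc]

lemma prod_T_even (y : ℕ → ℕ → R) (k : ℕ) :
    ∏ j ∈ range (2 * k), T y (2 * k) j =
      ∏ i ∈ range k, (afac y (2 * k - 1 - 2 * i) (2 * i) * bfac y (2 * i) 0) := by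
  rw [prod_range_two_mul, prod_mul_distrib, prod_mul_distrib, mul_comm]
  congr 1
  · rw [← prod_range_reflect]
    refine prod_congr rfl (fun i hi => ?_)
    rw [mem_range] at hi
    rw [T, if_pos]
    · congr 1 <;> omega
    · exact ⟨i, by omega⟩
  · refine prod_congr rfl (fun i hi => ?_)
    rw [mem_range] at hi
    rw [T, if_neg]
    rw [Nat.not_even_iff_odd]
    exact ⟨k - 1 - i, by omega⟩

lemma prod_T_odd (y : ℕ → ℕ → R) (k : ℕ) :
    ∏ j ∈ range (2 * k + 1), T y (2 * k + 1) j =
      ∏ i ∈ range (k + 1), (afac y (2 * k - 2 * i) (2 * i) * bfac y (2 * i - 1) 0) := by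
  have h1 : ∏ i ∈ range (k + 1), bfac y (2 * i - 1) 0 = ∏ i ∈ range k, bfac y (2 * i + 1) 0 := by
    rw [prod_range_succ']
    have : bfac y (2 * 0 - 1) 0 = 1 := by simp [bfac, U]
    rw [this, mul_one]
    refine prod_congr rfl (fun i _ => ?_)
    congr 1
  have h2 : ∏ i ∈ range (k + 1), afac y (2 * k - 2 * i) (2 * i) =
      (∏ i ∈ range k, afac y (2 * i + 2) (2 * (k - 1 - i))) * afac y 0 (2 * k) := by
    rw [← prod_range_reflect, prod_range_succ']
    congr 1
    · refine prod_congr rfl (fun i hi => ?_)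
      rw [mem_range] at hi
      congr 1 <;> omega
    · congr 1 <;> omega
  rw [prod_mul_distrib, h1, h2, prod_range_succ', prod_range_two_mul (fun j => T y (2 * k + 1) (j + 1)),
    prod_mul_distrib]
  have h3 : T y (2 * k + 1) 0 = afac y 0 (2 * k) := by
    rw [T, if_pos]
    · congr 1
    · exact ⟨k, by omega⟩
  have h4 : ∏ i ∈ range k, T y (2 * k + 1) (2 * i + 1) = ∏ i ∈ range k, bfac y (2 * i + 1) 0 := by
    refine prod_congr rfl (fun i hi => ?_)
    rw [mem_range] at hi
    rw [T, if_neg]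
    rw [Nat.not_even_iff_odd]
    exact ⟨k - 1 - i, by omega⟩
  have h5 : ∏ i ∈ range k, T y (2 * k + 1) (2 * i + 1 + 1) =
      ∏ i ∈ range k, afac y (2 * i + 2) (2 * (k - 1 - i)) := by
    refine prod_congr rfl (fun i hi => ?_)
    rw [mem_range] at hi
    rw [T, if_pos]
    · congr 1; omega
    · exact ⟨k - 1 - i, by omega⟩
  rw [h3, h4, h5]
  ring

end reindex

lemma Sup_afac (l i : ℕ) : Sup (afac y l i) (PathFrom i (Ioc i (i + l))) := by
  unfold afac
  exact Sup_U l i _ (by simp) (by simp)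

lemma Sup_bfac (l : ℕ) : Sup (bfac y l 0) (PathFrom l (Ico 0 l)) := by
  unfold bfac
  simp only [zero_add]
  exact Sup_U l l _ (by simp) (by simp)

lemma exists_even (k : ℕ) (hk : 0 < k) (g : G)
    (hg : ∀ e, g e ≠ 0 → ∃ a b, a < b ∧ b < 2 * k ∧ e = s(a, b)) :
    ∃ S : ℕ → G, (∀ i ∈ range k, PathVec (2 * k) (S i)) ∧ g = ∑ i ∈ range k, S i := by
  have h1 := prod_T y y_symm y_sq (2 * k) (by omega)
  rw [prod_T_even] at h1
  have h2 := Sup_prod (range k) (fun i => afac y (2 * k - 1 - 2 * i) (2 * i) * bfac y (2 * i) 0)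
    (fun _ => PathVec (2 * k)) (by
      intro i hi
      rw [mem_range] at hi
      refine ((Sup_afac (2 * k - 1 - 2 * i) (2 * i)).mul (Sup_bfac (2 * i))).mono ?_
      rintro g ⟨a, b, ha, hb, rfl⟩
      refine pathVec_join (2 * k) (2 * i) _ _ (by omega) ?_ ?_ a b ha hb
      · intro x hx
        rw [mem_Ioc] at hx
        omega
      · intro x hx
        rw [mem_Ico] at hx
        omega)
  rw [h1] at h2
  apply h2 g
  rw [coeff_Om (2 * k) g hg]
  exact one_ne_zero

lemma exists_odd (k : ℕ) (g : G)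
    (hg : ∀ e, g e ≠ 0 → ∃ a b, a < b ∧ b < 2 * k + 1 ∧ e = s(a, b)) :
    ∃ S : ℕ → G, (∀ i ∈ range (k + 1), PathVec (2 * k + 1) (S i)) ∧ g = ∑ i ∈ range (k + 1), S i := by
  have h1 := prod_T y y_symm y_sq (2 * k + 1) (by omega)
  rw [prod_T_odd] at h1
  -- the fixed joining edges
  let F : ℕ → G := fun i => if i = 0 then 0 else dl s(2 * i - 1, 2 * i)
  have h2 := Sup_prod (range (k + 1)) (fun i => afac y (2 * k - 2 * i) (2 * i) * bfac y (2 * i - 1) 0)
    (fun i g => PathVec (2 * k + 1) (g + F i)) (by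
      intro i hi
      rw [mem_range] at hi
      refine ((Sup_afac (2 * k - 2 * i) (2 * i)).mul (Sup_bfac (2 * i - 1))).mono ?_
      rintro g ⟨a, b, ha, hb, rfl⟩
      by_cases h0 : i = 0
      · subst h0
        have hb0 : b = 0 := by
          obtain ⟨l, _, hl2, rfl⟩ := hb
          cases l with
          | nil => rfl
          | cons x l =>
            have := hl2 x (by simp)
            simp at this
        rw [hb0, show F 0 = 0 from rfl, add_zero, add_zero]
        refine pathVec_single (2 * k + 1) (2 * 0) _ (by omega) ?_ a ha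
        intro x hx
        rw [mem_Ioc] at hx
        omega
      · have hF : F i = dl s(2 * i - 1, 2 * i - 1 + 1) := by
          show (if i = 0 then 0 else dl s(2 * i - 1, 2 * i)) = _
          rw [if_neg h0]
          congr 2
          rw [show 2 * i - 1 + 1 = 2 * i by omega]
        rw [hF]
        have ha' : PathFrom (2 * i - 1 + 1) (Ioc (2 * i) (2 * i + (2 * k - 2 * i))) a := by
          rw [show 2 * i - 1 + 1 = 2 * i by omega]; exact ha
        refine pathVec_join2 (2 * k + 1) (2 * i - 1) _ _ (by omega) ?_ ?_ a b ha' hb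
        · intro x hx
          rw [mem_Ioc] at hx
          omega
        · intro x hx
          rw [mem_Ico] at hx
          omega)
  rw [h1] at h2
  have h3 := h2 (g + ∑ i ∈ range (k + 1), F i) (by
    rw [coeff_Om (2 * k + 1)]
    · exact one_ne_zero
    · intro e he
      by_cases hge : g e = 0
      · rw [Pi.add_apply, hge, zero_add, Finset.sum_apply] at he
        obtain ⟨i, hi, hie⟩ := Finset.exists_ne_zero_of_sum_ne_zero he
        rw [mem_range] at hi
        have h0 : i ≠ 0 := by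
          rintro rfl
          exact hie rfl
        have hF : F i = dl s(2 * i - 1, 2 * i) := by
          show (if i = 0 then 0 else dl s(2 * i - 1, 2 * i)) = _
          rw [if_neg h0]
        rw [hF] at hie
        refine ⟨2 * i - 1, 2 * i, by omega, by omega, ?_⟩
        by_contra hne
        apply hie
        unfold dl
        rw [Pi.single_eq_of_ne hne]
      · exact hg e hge)
  obtain ⟨S, hS, hsum⟩ := h3
  refine ⟨fun i => S i + F i, hS, ?_⟩
  rw [sum_add_distrib, ← hsum, add_assoc, G_add_self, add_zero]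

lemma exists_paths (n : ℕ) (hn : 0 < n) (g : G)
    (hg : ∀ e, g e ≠ 0 → ∃ a b, a < b ∧ b < n ∧ e = s(a, b)) :
    ∃ S : ℕ → G, (∀ i ∈ range ((n + 1) / 2), PathVec n (S i)) ∧ g = ∑ i ∈ range ((n + 1) / 2), S i := by
  rcases Nat.even_or_odd' n with ⟨k, rfl | rfl⟩
  · rw [show (2 * k + 1) / 2 = k by omega]
    exact exists_even k (by omega) g hg
  · rw [show (2 * k + 1 + 1) / 2 = k + 1 by omega]
    exact exists_odd k g hg

/-! ### Walks -/

/-- The list of consecutive pairs. -/
def el {n : ℕ} : List (Fin n) → List (Sym2 (Fin n))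
  | [] => []
  | [_] => []
  | a :: b :: l => s(a, b) :: el (b :: l)

lemma exists_walk {n : ℕ} : ∀ (l : List (Fin n)) (a : Fin n), (a :: l).Nodup →
    ∃ (b : Fin n) (p : (⊤ : SimpleGraph (Fin n)).Walk a b), p.IsPath ∧ p.support = a :: l ∧
      p.edges = el (a :: l)
  | [], a, _ => ⟨a, SimpleGraph.Walk.nil, by simp, by simp, by simp [el]⟩
  | c :: l, a, h => by
    rw [List.nodup_cons] at h
    obtain ⟨b, p, hp1, hp2, hp3⟩ := exists_walk l c h.2
    have hac : (⊤ : SimpleGraph (Fin n)).Adj a c := by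
      rw [SimpleGraph.top_adj]
      rintro rfl
      exact h.1 (by simp)
    refine ⟨b, SimpleGraph.Walk.cons hac p, ?_, ?_, ?_⟩
    · rw [SimpleGraph.Walk.cons_isPath_iff, hp2]
      exact ⟨hp1, h.1⟩
    · rw [SimpleGraph.Walk.support_cons, hp2]
    · rw [SimpleGraph.Walk.edges_cons, hp3, el]

lemma es_map {n : ℕ} (a b : Fin n) : ∀ (l : List (Fin n)),
    es (l.map Fin.val) s((a : ℕ), (b : ℕ)) = (((el l).count s(a, b) : ℕ) : ZMod 2)
  | [] => by simp [es, el]
  | [x] => by simp [es, el]
  | x :: x' :: l => by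
    have h := es_map a b (x' :: l)
    rw [List.map_cons] at h
    rw [List.map_cons, List.map_cons, es, el, Pi.add_apply, h, List.count_cons, Nat.cast_add, add_comm]
    congr 1
    by_cases hx : s(a, b) = s(x, x')
    · have h2 : s((a : ℕ), (b : ℕ)) = s((x : ℕ), (x' : ℕ)) := by
        have := congrArg (Sym2.map Fin.val) hx
        simpa using this
      rw [h2, hx]
      simp [dl]
    · have h2 : s((a : ℕ), (b : ℕ)) ≠ s((x : ℕ), (x' : ℕ)) := by
        intro h'
        apply hx
        have : Sym2.map Fin.val s(a, b) = Sym2.map Fin.val s(x, x') := by simpa using h'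
        exact Sym2.map.injective Fin.val_injective this
      unfold dl
      rw [Pi.single_eq_of_ne h2]
      have h3 : (s(x, x') == s(a, b)) = false := by
        simp only [beq_eq_false_iff_ne, ne_eq]
        exact fun h' => hx h'.symm
      rw [h3]
      simp

lemma exists_list_fin {n : ℕ} (l : List ℕ) (h : ∀ x ∈ l, x < n) :
    ∃ l' : List (Fin n), l'.map Fin.val = l := by
  refine ⟨l.pmap (fun x hx => (⟨x, hx⟩ : Fin n)) h, ?_⟩
  rw [List.map_pmap]
  simp

lemma exists_walk_of_pathVec {n : ℕ} (g : G) (h : PathVec n g) :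
    ∃ (u v : Fin n) (p : (⊤ : SimpleGraph (Fin n)).Walk u v), p.IsPath ∧
      ∀ a b : Fin n, g s((a : ℕ), (b : ℕ)) = if s(a, b) ∈ p.edges then 1 else 0 := by
  obtain ⟨l, hne, hnd, hlt, rfl⟩ := h
  obtain ⟨l', rfl⟩ := exists_list_fin l hlt
  have hnd' : l'.Nodup := (List.nodup_map_iff Fin.val_injective).mp hnd
  cases l' with
  | nil => simp at hne
  | cons u l'' =>
    obtain ⟨v, p, hp1, _, hp3⟩ := exists_walk l'' u hnd'
    refine ⟨u, v, p, hp1, ?_⟩
    intro a b
    rw [es_map, ← hp3]
    have hnd3 : p.edges.Nodup := hp1.isTrail.edges_nodup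
    by_cases hmem : s(a, b) ∈ p.edges
    · rw [if_pos hmem, List.count_eq_one_of_mem hnd3 hmem, Nat.cast_one]
    · rw [if_neg hmem, List.count_eq_zero_of_not_mem hmem, Nat.cast_zero]

theorem main (n : ℕ) (Gr : SimpleGraph (Fin n)) :
      ∃ (k : ℕ) (u v : Fin k → Fin n)
        (P : ∀ i : Fin k, (⊤ : SimpleGraph (Fin n)).Walk (u i) (v i)),
        k ≤ (n + 1) / 2 ∧
        (∀ i : Fin k, (P i).IsPath) ∧
        ∀ a b : Fin n, a ≠ b →
          (Gr.Adj a b ↔
            Odd ((Finset.univ.filter (fun i : Fin k => s(a, b) ∈ (P i).edges)).card)) := by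
  classical
  rcases Nat.eq_zero_or_pos n with rfl | hn
  · exact ⟨0, fun i => i.elim0, fun i => i.elim0, fun i => i.elim0, by simp, fun i => i.elim0,
      fun a => a.elim0⟩
  let g : G := fun e => if ∃ a b : Fin n, Gr.Adj a b ∧ e = s((a : ℕ), (b : ℕ)) then 1 else 0
  have hg : ∀ e, g e ≠ 0 → ∃ a b, a < b ∧ b < n ∧ e = s(a, b) := by
    intro e he
    have : ∃ a b : Fin n, Gr.Adj a b ∧ e = s((a : ℕ), (b : ℕ)) := by
      by_contra h
      exact he (if_neg h)
    obtain ⟨a, b, hab, rfl⟩ := this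
    have hne : (a : ℕ) ≠ b := fun h => hab.ne (Fin.ext h)
    rcases lt_or_gt_of_ne hne with h | h
    · exact ⟨a, b, h, b.2, rfl⟩
    · exact ⟨b, a, h, a.2, Sym2.eq_swap⟩
  obtain ⟨S, hS, hsum⟩ := exists_paths n hn g hg
  have hS' : ∀ i : Fin ((n + 1) / 2), ∃ (u v : Fin n) (p : (⊤ : SimpleGraph (Fin n)).Walk u v),
      p.IsPath ∧ ∀ a b : Fin n, S i s((a : ℕ), (b : ℕ)) = if s(a, b) ∈ p.edges then 1 else 0 :=
    fun i => exists_walk_of_pathVec (S i) (hS i (by simp))
  choose u v P hP1 hP2 using hS'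
  refine ⟨(n + 1) / 2, u, v, P, le_rfl, hP1, ?_⟩
  intro a b _
  have h1 : g s((a : ℕ), (b : ℕ)) =
      (((Finset.univ.filter (fun i : Fin ((n + 1) / 2) => s(a, b) ∈ (P i).edges)).card : ℕ) : ZMod 2) := by
    rw [hsum, Finset.sum_apply, Finset.sum_range, Finset.card_filter, Nat.cast_sum]
    refine Finset.sum_congr rfl (fun i _ => ?_)
    rw [hP2 i a b]
    split_ifs <;> simp
  have h2 : Gr.Adj a b ↔ g s((a : ℕ), (b : ℕ)) = 1 := by
    constructor
    · intro h
      exact if_pos ⟨a, b, h, rfl⟩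
    · intro h
      by_contra hn'
      have h3 : g s((a : ℕ), (b : ℕ)) = 0 := by
        apply if_neg
        rintro ⟨a', b', hab', heq⟩
        rw [Sym2.eq_iff] at heq
        rcases heq with ⟨h4, h5⟩ | ⟨h4, h5⟩
        · rw [Fin.ext h4, Fin.ext h5] at hn'
          exact hn' hab'
        · rw [Fin.ext h4, Fin.ext h5] at hn'
          exact hn' hab'.symm
      rw [h3] at h
      exact absurd h (by decide)
  rw [h2, h1, ZMod.natCast_eq_one_iff_odd]

end Pool.Agent.H6.PathOdd
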